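import Pool.Agent.H88.L.W476.TP.Stm

/-!
# Part SUM of project TP
(helper349)
-/

set_option autoImplicit false

open Pool.Agent.W476.TP

namespace W349.TP

section

variable {C : Type} [NormedField C] [IsUltrametricDist C]

theorem add_le {x y : C} {r : ℝ} (hx : ‖x‖ ≤ r) (hy : ‖y‖ ≤ r) : ‖x + y‖ ≤ r :=
  (IsUltrametricDist.norm_add_le_max x y).trans (max_le hx hy)

theorem sum_le {α : Type*} (s : Finset α) (f : α → C) {r : ℝ} (hr : 0 ≤ r)
    (h : ∀ b ∈ s, ‖f b‖ ≤ r) : ‖∑ b ∈ s, f b‖ ≤ r := by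
  classical
  induction s using Finset.induction_on with
  | empty => simpa using hr
  | insert b s hb ih =>
    rw [Finset.sum_insert hb]
    exact add_le (h b (Finset.mem_insert_self _ _))
      (ih fun c hc => h c (Finset.mem_insert_of_mem hc))

theorem pow_diff {a b : C} {r c : ℝ} (hr : 0 ≤ r) (hc : 0 ≤ c) (ha : ‖a‖ ≤ c) (hb : ‖b‖ ≤ c)
    (hab : ‖a - b‖ ≤ r * c) (i : ℕ) : ‖a ^ i - b ^ i‖ ≤ r * c ^ i := by
  induction i with
  | zero => simpa using hr
  | succ i ih =>
    have e : a ^ (i + 1) - b ^ (i + 1) = a * (a ^ i - b ^ i) + (a - b) * b ^ i := by ring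
    rw [e]
    apply add_le
    · rw [norm_mul]
      calc ‖a‖ * ‖a ^ i - b ^ i‖ ≤ c * (r * c ^ i) :=
            mul_le_mul ha ih (norm_nonneg _) hc
        _ = r * c ^ (i + 1) := by rw [pow_succ]; ring
    · rw [norm_mul, norm_pow]
      calc ‖a - b‖ * ‖b‖ ^ i ≤ (r * c) * c ^ i :=
            mul_le_mul hab (pow_le_pow_left₀ (norm_nonneg _) hb i) (by positivity) (by positivity)
        _ = r * c ^ (i + 1) := by rw [pow_succ]; ring

theorem pow_p_diff {p : ℕ} (hp : 1 ≤ p) (hP : ‖(p : C)‖ ≤ 1) {a b : C} {c : ℝ} (hc : 0 ≤ c)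
    (ha : ‖a‖ ≤ c) (hb : ‖b‖ ≤ c) (j : ℕ)
    (hab : ‖a - b‖ ≤ ‖(p : C)‖ ^ (j + 1) * c) :
    ‖a ^ p - b ^ p‖ ≤ ‖(p : C)‖ ^ (j + 1 + 1) * c ^ p := by
  set P := ‖(p : C)‖ with hPdef
  have hP0 : 0 ≤ P := norm_nonneg _
  rw [← geom_sum₂_mul a b p, norm_mul]
  have h1 : ‖∑ i ∈ Finset.range p, a ^ i * b ^ (p - 1 - i)‖ ≤ P * c ^ (p - 1) := by
    have e : ∑ i ∈ Finset.range p, a ^ i * b ^ (p - 1 - i) =
        (p : C) * b ^ (p - 1) + ∑ i ∈ Finset.range p, (a ^ i - b ^ i) * b ^ (p - 1 - i) := by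
      have e2 : ∑ i ∈ Finset.range p, b ^ i * b ^ (p - 1 - i) = (p : C) * b ^ (p - 1) := by
        rw [Finset.sum_congr rfl (g := fun _ => b ^ (p - 1))]
        · rw [Finset.sum_const, Finset.card_range, nsmul_eq_mul]
        · intro i hi
          rw [Finset.mem_range] at hi
          rw [← pow_add]
          congr 1
          omega
      rw [← e2, ← Finset.sum_add_distrib]
      exact Finset.sum_congr rfl fun i _ => by ring
    rw [e]
    apply add_le
    · rw [norm_mul, norm_pow]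
      exact mul_le_mul_of_nonneg_left (pow_le_pow_left₀ (norm_nonneg _) hb _) hP0
    · apply sum_le _ _ (by positivity)
      intro i hi
      rw [Finset.mem_range] at hi
      rw [norm_mul, norm_pow]
      have h2 := pow_diff (r := P ^ (j + 1)) (by positivity) hc ha hb hab i
      have h3 : P ^ (j + 1) ≤ P := by
        calc P ^ (j + 1) ≤ P ^ 1 := pow_le_pow_of_le_one hP0 hP (by omega)
          _ = P := pow_one P
      calc ‖a ^ i - b ^ i‖ * ‖b‖ ^ (p - 1 - i) ≤ (P * c ^ i) * c ^ (p - 1 - i) :=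
            mul_le_mul (h2.trans (mul_le_mul_of_nonneg_right h3 (by positivity)))
              (pow_le_pow_left₀ (norm_nonneg _) hb _) (by positivity) (by positivity)
        _ = P * c ^ (p - 1) := by
            rw [mul_assoc, ← pow_add]
            congr 2
            omega
  calc _ ≤ (P * c ^ (p - 1)) * (P ^ (j + 1) * c) :=
        mul_le_mul h1 hab (norm_nonneg _) (by positivity)
    _ = P ^ (j + 1 + 1) * (c ^ (p - 1) * c) := by ring
    _ = P ^ (j + 1 + 1) * c ^ p := by rw [← pow_succ, Nat.sub_add_cancel hp]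

theorem pow_q_diff {p : ℕ} (hp : 1 ≤ p) (hP : ‖(p : C)‖ ≤ 1) {a b : C} {c : ℝ} (hc : 0 ≤ c)
    (ha : ‖a‖ ≤ c) (hb : ‖b‖ ≤ c) (hab : ‖a - b‖ ≤ ‖(p : C)‖ * c) (k : ℕ) :
    ‖a ^ p ^ k - b ^ p ^ k‖ ≤ ‖(p : C)‖ ^ (k + 1) * c ^ p ^ k := by
  induction k with
  | zero => simpa using hab
  | succ k ih =>
    have h1 := pow_p_diff hp hP (a := a ^ p ^ k) (b := b ^ p ^ k) (c := c ^ p ^ k) (by positivity)
      (by rw [norm_pow]; exact pow_le_pow_left₀ (norm_nonneg _) ha _)
      (by rw [norm_pow]; exact pow_le_pow_left₀ (norm_nonneg _) hb _) k ih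
    rw [← pow_mul, ← pow_mul, ← pow_mul, ← pow_succ] at h1
    exact h1

theorem nat_le (n : ℕ) : ‖(n : C)‖ ≤ 1 := by
  induction n with
  | zero => simp
  | succ n ih =>
    rw [Nat.cast_succ]
    exact add_le ih (by simp)

end

/-- the multinomial coefficients are divisible by `p` -/
theorem dvd_multi {ι : Type} [Fintype ι] [DecidableEq ι] (p k : ℕ) (hp : p.Prime) (α : ι → ℕ)
    (h1 : ∑ i, α i = p ^ k) (h2 : ∀ i, α i ≠ p ^ k) : p ∣ Nat.multinomial Finset.univ α := by
  have hq : 0 < p ^ k := pow_pos hp.pos k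
  obtain ⟨i, -, hi⟩ : ∃ i ∈ Finset.univ, α i ≠ 0 := by
    by_contra hcon
    push Not at hcon
    rw [Finset.sum_eq_zero hcon] at h1
    omega
  have e1 : (Finset.univ : Finset ι) = insert i (Finset.univ.erase i) := by
    rw [Finset.insert_erase (Finset.mem_univ i)]
  rw [e1, Nat.multinomial_insert (Finset.notMem_erase i _)]
  have e2 : α i + ∑ j ∈ Finset.univ.erase i, α j = p ^ k := by
    rw [Finset.add_sum_erase _ _ (Finset.mem_univ i), h1]
  rw [e2]
  exact Dvd.dvd.mul_right (hp.dvd_choose_pow hi (h2 i)) _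

theorem multi_single {ι : Type} [Fintype ι] [DecidableEq ι] (q : ℕ) (i : ι) :
    Nat.multinomial Finset.univ (Pi.single i q) = 1 := by
  have h := Nat.multinomial_spec (Finset.univ) (Pi.single i q : ι → ℕ)
  have e1 : ∑ j, (Pi.single i q : ι → ℕ) j = q := Fintype.sum_pi_single' i q
  have e2 : ∏ j, ((Pi.single i q : ι → ℕ) j).factorial = q.factorial := by
    rw [Finset.prod_eq_single i]
    · rw [Pi.single_eq_same]
    · intro j _ hj
      rw [Pi.single_eq_of_ne hj, Nat.factorial_zero]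
    · intro h
      exact absurd (Finset.mem_univ i) h
  rw [e1, e2] at h
  have h3 : 0 < q.factorial := Nat.factorial_pos q
  exact Nat.eq_of_mul_eq_mul_left h3 (by rw [h, mul_one])

theorem t_SUM : S_SUM := by
  classical
  intro p _ C L _ _ _ _ S hP0 hP1 k ι _ _
  have hp : p.Prime := Fact.out
  set q := p ^ k with hq
  have hq0 : 0 < q := pow_pos hp.pos k
  set P := ‖(p : C)‖ with hP
  -- the coefficients
  have hγ : ∀ α : ι → ℕ, ∃ g : L, ‖S.sh g‖ ≤ P ∧
      (p ∣ Nat.multinomial Finset.univ α → S.sh g = -(Nat.multinomial Finset.univ α : C)) := by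
    intro α
    by_cases h : p ∣ Nat.multinomial Finset.univ α
    · obtain ⟨g, hg⟩ := S.surj (-(Nat.multinomial Finset.univ α : C))
      refine ⟨g, ?_, fun _ => hg⟩
      obtain ⟨t, ht⟩ := h
      rw [hg, ht, norm_neg, Nat.cast_mul, norm_mul]
      calc P * ‖(t : C)‖ ≤ P * 1 := mul_le_mul_of_nonneg_left (nat_le t) hP0.le
        _ = P := mul_one P
    · exact ⟨0, by rw [map_zero, norm_zero]; exact hP0.le, fun h' => absurd h' h⟩
  choose γ hγ1 hγ2 using hγ
  refine ⟨γ, hγ1, fun v M hM hv => ?_⟩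
  obtain ⟨c, hc0, hcM⟩ : ∃ c : ℝ, 0 ≤ c ∧ c ^ q = M :=
    ⟨M ^ ((q : ℝ)⁻¹), by positivity, Real.rpow_inv_natCast_pow hM hq0.ne'⟩
  have hvc : ∀ i, ‖S.sh (v i)‖ ≤ c := by
    intro i
    have := hv i
    rw [← hcM] at this
    exact (pow_le_pow_iff_left₀ (norm_nonneg _) hc0 hq0.ne').1 this
  -- the sharp of a sum
  have hadd : ∀ s : Finset ι, ‖S.sh (∑ i ∈ s, v i)‖ ≤ c ∧ ‖∑ i ∈ s, S.sh (v i)‖ ≤ c ∧
      ‖S.sh (∑ i ∈ s, v i) - ∑ i ∈ s, S.sh (v i)‖ ≤ P * c := by
    intro s
    refine ⟨?_, sum_le s _ hc0 fun i _ => hvc i, ?_⟩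
    · induction s using Finset.induction_on with
      | empty => simpa using hc0
      | insert b s hb ih =>
        rw [Finset.sum_insert hb]
        have h1 := S.add (v b) (∑ i ∈ s, v i)
        have h2 : P * max ‖S.sh (v b)‖ ‖S.sh (∑ i ∈ s, v i)‖ ≤ c := by
          calc P * max ‖S.sh (v b)‖ ‖S.sh (∑ i ∈ s, v i)‖ ≤ 1 * c :=
                mul_le_mul hP1.le (max_le (hvc b) ih) (by positivity) zero_le_one
            _ = c := one_mul c
        have e : S.sh (v b + ∑ i ∈ s, v i) = (S.sh (v b + ∑ i ∈ s, v i) -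
            (S.sh (v b) + S.sh (∑ i ∈ s, v i))) + (S.sh (v b) + S.sh (∑ i ∈ s, v i)) := by ring
        rw [e]
        exact add_le (h1.trans h2) (add_le (hvc b) ih)
    · induction s using Finset.induction_on with
      | empty => simp; positivity
      | insert b s hb ih =>
        rw [Finset.sum_insert hb, Finset.sum_insert hb]
        have h0 : ‖S.sh (∑ i ∈ s, v i)‖ ≤ c := by
          have e : S.sh (∑ i ∈ s, v i) = (S.sh (∑ i ∈ s, v i) - ∑ i ∈ s, S.sh (v i)) +
              ∑ i ∈ s, S.sh (v i) := by ring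
          rw [e]
          apply add_le _ (sum_le s _ hc0 fun i _ => hvc i)
          refine ih.trans ?_
          calc P * c ≤ 1 * c := mul_le_mul_of_nonneg_right hP1.le hc0
            _ = c := one_mul c
        have h1 := S.add (v b) (∑ i ∈ s, v i)
        have h2 : P * max ‖S.sh (v b)‖ ‖S.sh (∑ i ∈ s, v i)‖ ≤ P * c :=
          mul_le_mul_of_nonneg_left (max_le (hvc b) h0) hP0.le
        have e : S.sh (v b + ∑ i ∈ s, v i) - (S.sh (v b) + ∑ i ∈ s, S.sh (v i)) =
            (S.sh (v b + ∑ i ∈ s, v i) - (S.sh (v b) + S.sh (∑ i ∈ s, v i))) +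
            (S.sh (∑ i ∈ s, v i) - ∑ i ∈ s, S.sh (v i)) := by ring
        rw [e]
        exact add_le (h1.trans h2) ih
  obtain ⟨ha, hb, hab⟩ := hadd Finset.univ
  set a := S.sh (∑ i, v i) with hadef
  set b := ∑ i, S.sh (v i) with hbdef
  have hdiff := pow_q_diff hp.one_lt.le hP1.le hc0 ha hb hab k
  rw [← hq, hcM] at hdiff
  -- the power of `a`
  have haq : S.sh (∑ i, v i ^ q) = a ^ q := by
    rw [hadef, ← map_pow, hq, sum_pow_char_pow]
  -- the power of `b`
  have hbq : b ^ q = ∑ i, S.sh (v i ^ q) -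
      ∑ α ∈ ((Fintype.piFinset fun _ : ι => Finset.range (q + 1)).filter
        fun α => (∑ i, α i = q) ∧ ∀ i, α i ≠ q), S.sh (γ α * ∏ i, v i ^ α i) := by
    rw [hbdef, Finset.sum_pow_eq_sum_piAntidiag,
      ← Finset.sum_filter_add_sum_filter_not _ (fun α : ι → ℕ => ∃ i, α i = q), sub_eq_add_neg]
    congr 1
    · have e1 : (Finset.piAntidiag (Finset.univ : Finset ι) q).filter (fun α => ∃ i, α i = q) =
          Finset.univ.image (fun i : ι => (Pi.single i q : ι → ℕ)) := by
        ext α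
        rw [Finset.mem_filter, Finset.mem_piAntidiag, Finset.mem_image]
        constructor
        · rintro ⟨⟨h1, -⟩, i, hi⟩
          refine ⟨i, Finset.mem_univ _, ?_⟩
          have h2 : ∑ j ∈ Finset.univ.erase i, α j = 0 := by
            have h3 := Finset.add_sum_erase Finset.univ α (Finset.mem_univ i)
            rw [hi] at h3
            have h4 : q + ∑ j ∈ Finset.univ.erase i, α j = q := h3.trans h1
            omega
          rw [Finset.sum_eq_zero_iff] at h2
          funext j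
          by_cases hj : j = i
          · rw [hj, Pi.single_eq_same, hi]
          · rw [Pi.single_eq_of_ne hj]
            exact (h2 j (Finset.mem_erase.2 ⟨hj, Finset.mem_univ _⟩)).symm
        · rintro ⟨i, -, rfl⟩
          exact ⟨⟨Fintype.sum_pi_single' i q, fun _ _ => Finset.mem_univ _⟩, i,
            Pi.single_eq_same (M := fun _ => ℕ) i q⟩
      rw [e1, Finset.sum_image]
      · refine Finset.sum_congr rfl fun i _ => ?_
        rw [multi_single, Nat.cast_one, one_mul, map_pow, Finset.prod_eq_single i]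
        · rw [Pi.single_eq_same]
        · intro j _ hj
          rw [Pi.single_eq_of_ne hj, pow_zero]
        · intro h
          exact absurd (Finset.mem_univ i) h
      · intro i _ j _ hij
        by_contra hne
        have h5 : (Pi.single i q : ι → ℕ) i = (Pi.single j q : ι → ℕ) i := congrFun hij i
        rw [Pi.single_eq_same, Pi.single_eq_of_ne hne] at h5
        omega
    · rw [← Finset.sum_neg_distrib]
      apply Finset.sum_congr
      · ext α
        rw [Finset.mem_filter, Finset.mem_piAntidiag, Finset.mem_filter, Fintype.mem_piFinset]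
        push Not
        constructor
        · rintro ⟨⟨h1, -⟩, h2⟩
          refine ⟨fun i => ?_, h1, h2⟩
          rw [Finset.mem_range]
          have h4 : α i ≤ ∑ j, α j :=
            Finset.single_le_sum (f := α) (fun _ _ => Nat.zero_le _) (Finset.mem_univ i)
          have h5 : α i ≤ q := h4.trans h1.le
          omega
        · rintro ⟨-, h1, h2⟩
          exact ⟨⟨h1, fun _ _ => Finset.mem_univ _⟩, h2⟩
      · intro α hα
        rw [Finset.mem_filter] at hα
        have h3 := dvd_multi p k hp α hα.2.1 hα.2.2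
        rw [map_mul, hγ2 α h3, map_prod, neg_mul, neg_neg]
        congr 1
        exact Finset.prod_congr rfl fun i _ => (map_pow _ _ _).symm
  rw [haq]
  have e : (∑ i, S.sh (v i ^ q)) - (a ^ q +
      ∑ α ∈ ((Fintype.piFinset fun _ : ι => Finset.range (q + 1)).filter
        fun α => (∑ i, α i = q) ∧ ∀ i, α i ≠ q), S.sh (γ α * ∏ i, v i ^ α i)) =
      -(a ^ q - b ^ q) := by
    rw [hbq]
    ring
  rw [e, norm_neg]
  exact hdiff

end W349.TP
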